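import Mathlib

/-!
# Connectivity inside a vertex set, labelled graphs and contraction
-/

namespace H52Scheme

universe u v

variable {V : Type u}

/-- `x` and `y` are joined by a walk of `G` all of whose edges have both ends in `S`. -/
def Conn (G : SimpleGraph V) (S : Set V) (x y : V) : Prop :=
  Relation.ReflTransGen (fun a b => G.Adj a b ∧ a ∈ S ∧ b ∈ S) x y

theorem Conn.refl (G : SimpleGraph V) (S : Set V) (x : V) : Conn G S x x :=
  Relation.ReflTransGen.refl

theorem Conn.trans {G : SimpleGraph V} {S : Set V} {x y z : V} (h₁ : Conn G S x y)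
    (h₂ : Conn G S y z) : Conn G S x z := Relation.ReflTransGen.trans h₁ h₂

theorem Conn.single {G : SimpleGraph V} {S : Set V} {x y : V} (h : G.Adj x y) (hx : x ∈ S)
    (hy : y ∈ S) : Conn G S x y := Relation.ReflTransGen.single ⟨h, hx, hy⟩

theorem Conn.symm {G : SimpleGraph V} {S : Set V} {x y : V} (h : Conn G S x y) :
    Conn G S y x := by
  induction h with
  | refl => exact Conn.refl _ _ _
  | tail _ hbc ih => exact (Conn.single hbc.1.symm hbc.2.2 hbc.2.1).trans ih

theorem Conn.mono {G : SimpleGraph V} {S T : Set V} (hST : S ⊆ T) {x y : V}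
    (h : Conn G S x y) : Conn G T x y := by
  induction h with
  | refl => exact Conn.refl _ _ _
  | tail _ hbc ih => exact ih.trans (Conn.single hbc.1 (hST hbc.2.1) (hST hbc.2.2))

theorem Conn.mem_right {G : SimpleGraph V} {S : Set V} {x y : V} (h : Conn G S x y)
    (hx : x ∈ S) : y ∈ S := by
  induction h with
  | refl => exact hx
  | tail _ hbc _ => exact hbc.2.2

/-- A walk inside `S` can be replaced by an injective sequence. -/
theorem Conn.exists_path {G : SimpleGraph V} {S : Set V} {x y : V} (h : Conn G S x y)
    (hx : x ∈ S) :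
    ∃ (N : ℕ) (q : ℕ → V), q 0 = x ∧ q N = y ∧ (∀ n < N, G.Adj (q n) (q (n + 1))) ∧
      (∀ n ≤ N, q n ∈ S) ∧ Set.InjOn q (Set.Iic N) := by
  classical
  have hw : ∃ p : G.Walk x y, ∀ z ∈ p.support, z ∈ S := by
    induction h with
    | refl => exact ⟨SimpleGraph.Walk.nil, by simpa using hx⟩
    | tail _ hbc ih =>
      obtain ⟨p, hp⟩ := ih
      refine ⟨p.concat hbc.1, fun z hz => ?_⟩
      rw [SimpleGraph.Walk.support_concat, List.mem_append] at hz
      rcases hz with hz | hz
      · exact hp z hz
      · rw [List.mem_singleton] at hz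
        rw [hz]; exact hbc.2.2
  obtain ⟨p, hp⟩ := hw
  have hpath : p.bypass.IsPath := p.bypass_isPath
  refine ⟨p.bypass.length, p.bypass.getVert, SimpleGraph.Walk.getVert_zero _,
    SimpleGraph.Walk.getVert_length _, fun n hn => SimpleGraph.Walk.adj_getVert_succ _ hn,
    fun n _ => hp _ (p.support_bypass_subset_support (SimpleGraph.Walk.getVert_mem_support _ _)), ?_⟩
  intro a ha b hb hab
  exact hpath.getVert_injOn ha hb hab

variable {L : Type v}

/-- A labelled graph with roots `r a` (`a : L`), the labels being split into two sides by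
`s : L → Bool`, such that roots of labels on different sides are joined using the vertices of
these two labels only. -/
structure BScheme (G : SimpleGraph V) (s : L → Bool) (lam : V → L) (r : L → V) : Prop where
  root : ∀ a, lam (r a) = a
  conn : ∀ a b, s a = true → s b = false → Conn G {x | lam x = a ∨ lam x = b} (r a) (r b)

/-- A rooted complete bipartite minor: disjoint connected sets `D a ∋ r a` with an edge between
`D a` and `D b` whenever `a` and `b` are on different sides. -/
def RootedMinor (G : SimpleGraph V) (s : L → Bool) (r : L → V) : Prop :=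
  ∃ D : L → Set V, (∀ a, r a ∈ D a) ∧ (∀ a b, a ≠ b → Disjoint (D a) (D b)) ∧
    (∀ a, ∀ x ∈ D a, ∀ y ∈ D a, Conn G (D a) x y) ∧
    ∀ a b, s a = true → s b = false → ∃ x ∈ D a, ∃ y ∈ D b, G.Adj x y

/-- The contraction of the edge `uv`: delete `v` and let `f v = u`. -/
noncomputable def contrMap (u v : V) (huv : u ≠ v) (x : V) : {x : V // x ≠ v} :=
  open Classical in if h : x = v then ⟨u, huv⟩ else ⟨x, h⟩

theorem contrMap_of_ne {u v : V} (huv : u ≠ v) (x : V) (h : x ≠ v) :
    contrMap u v huv x = ⟨x, h⟩ := by
  unfold contrMap; rw [dif_neg h]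

theorem contrMap_self {u v : V} (huv : u ≠ v) : contrMap u v huv v = ⟨u, huv⟩ := by
  unfold contrMap; rw [dif_pos rfl]

/-- The contracted graph. -/
def contrGraph (G : SimpleGraph V) (u v : V) (huv : u ≠ v) : SimpleGraph {x : V // x ≠ v} where
  Adj x y := x ≠ y ∧ ∃ a b, contrMap u v huv a = x ∧ contrMap u v huv b = y ∧ G.Adj a b
  symm := ⟨fun x y h => by
    obtain ⟨hne, a, b, ha, hb, hab⟩ := h
    exact ⟨hne.symm, b, a, hb, ha, hab.symm⟩⟩
  loopless := ⟨fun x h => h.1 rfl⟩

theorem contract_step [Fintype V] [DecidableEq L] (G : SimpleGraph V) (s : L → Bool) (lam : V → L)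
    (r : L → V) (h : BScheme G s lam r)
    (IH : ∀ (V' : Type u) [Fintype V'] (G' : SimpleGraph V') (lam' : V' → L) (r' : L → V'),
      Fintype.card V' < Fintype.card V → BScheme G' s lam' r' → RootedMinor G' s r')
    (u v : V) (huv : G.Adj u v) (hlam : lam u = lam v) : RootedMinor G s r := by
  classical
  -- we may assume that `v` is not a root
  wlog hv : v ≠ r (lam v) generalizing u v with H
  · have hv' : v = r (lam v) := not_not.1 hv
    refine H v u huv.symm hlam.symm ?_
    intro hu
    rw [hlam, ← hv'] at hu
    exact huv.ne hu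
  have hne : u ≠ v := huv.ne
  have hrv : ∀ a, r a ≠ v := by
    intro a ha
    apply hv
    have : lam v = a := by rw [← ha]; exact h.root a
    rw [this, ha]
  set f := contrMap u v hne with hf
  set G' := contrGraph G u v hne with hG'
  let lam' : {x : V // x ≠ v} → L := fun x => lam x.1
  let r' : L → {x : V // x ≠ v} := fun a => ⟨r a, hrv a⟩
  have hlamf : ∀ x, lam' (f x) = lam x := by
    intro x
    by_cases hx : x = v
    · rw [hx, hf, contrMap_self]; exact hlam
    · rw [hf, contrMap_of_ne hne x hx]
  have hfr : ∀ a, f (r a) = r' a := fun a => by rw [hf, contrMap_of_ne hne _ (hrv a)]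
  have hcard : Fintype.card {x : V // x ≠ v} < Fintype.card V := by
    exact Fintype.card_subtype_lt (x := v) (by simp)
  have hB : BScheme G' s lam' r' := by
    refine ⟨fun a => h.root a, fun a b ha hb => ?_⟩
    have hc := h.conn a b ha hb
    rw [← hfr a, ← hfr b]
    have hgen : ∀ x y, Conn G {x | lam x = a ∨ lam x = b} x y →
        Conn G' {x | lam' x = a ∨ lam' x = b} (f x) (f y) := by
      intro x y hxy
      induction hxy with
      | refl => exact Conn.refl _ _ _
      | @tail b' c' _ hbc ih =>
        refine ih.trans ?_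
        by_cases hbc' : f b' = f c'
        · rw [hbc']; exact Conn.refl _ _ _
        · refine Conn.single ⟨hbc', b', c', rfl, rfl, hbc.1⟩ ?_ ?_
          · change lam' (f b') = a ∨ lam' (f b') = b
            rw [hlamf]; exact hbc.2.1
          · change lam' (f c') = a ∨ lam' (f c') = b
            rw [hlamf]; exact hbc.2.2
    exact hgen _ _ hc
  obtain ⟨D, hD1, hD2, hD3, hD4⟩ := IH _ G' lam' r' hcard hB
  refine ⟨fun a => {x | f x ∈ D a}, ?_, ?_, ?_, ?_⟩
  · intro a
    change f (r a) ∈ D a
    rw [hfr]; exact hD1 a
  · intro a b hab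
    rw [Set.disjoint_left]
    intro x hxa hxb
    exact (Set.disjoint_left.1 (hD2 a b hab)) hxa hxb
  · intro a
    -- points with the same image are connected
    have hfib : ∀ x y, f x = f y → f x ∈ D a → Conn G {x | f x ∈ D a} x y := by
      intro x y hxy hx
      by_cases hxv : x = v
      · by_cases hyv : y = v
        · rw [hxv, hyv]; exact Conn.refl _ _ _
        · rw [hxv, hf, contrMap_self, contrMap_of_ne hne y hyv] at hxy
          have : u = y := congrArg Subtype.val hxy
          subst this
          have hy : f u ∈ D a := by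
            rw [hf, contrMap_of_ne hne u hne]
            rw [hxv, hf, contrMap_self] at hx
            exact hx
          rw [hxv]
          rw [hxv] at hx
          exact Conn.single huv.symm hx hy
      · by_cases hyv : y = v
        · rw [hyv, hf, contrMap_self, contrMap_of_ne hne x hxv] at hxy
          have : x = u := congrArg Subtype.val hxy
          subst this
          have hy : f v ∈ D a := by
            rw [hf, contrMap_self]
            rw [hf, contrMap_of_ne hne x hne] at hx
            exact hx
          rw [hyv]
          exact Conn.single huv hx hy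
        · rw [hf, contrMap_of_ne hne x hxv, contrMap_of_ne hne y hyv] at hxy
          have : x = y := congrArg Subtype.val hxy
          rw [this]; exact Conn.refl _ _ _
    have hgen : ∀ x' y', Conn G' (D a) x' y' → ∀ x y, f x = x' → f y = y' → x' ∈ D a →
        Conn G {x | f x ∈ D a} x y := by
      intro x' y' hxy
      induction hxy with
      | refl =>
        intro x y hx hy hmem
        exact hfib x y (hx.trans hy.symm) (by rw [hx]; exact hmem)
      | @tail b' c' _ hbc ih =>
        intro x y hx hy hmem
        obtain ⟨⟨_, p, q, hp, hq, hpq⟩, hb', hc'⟩ := hbc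
        have h1 := ih x p hx hp hmem
        have hpm : f p ∈ D a := by rw [hf, hp]; exact hb'
        have hqm : f q ∈ D a := by rw [hf, hq]; exact hc'
        exact (h1.trans (Conn.single hpq hpm hqm)).trans
          (hfib q y (by rw [hf, hq, ← hf, hy]) hqm)
    intro x hx y hy
    exact hgen (f x) (f y) (hD3 a _ hx _ hy) x y rfl rfl hx
  · intro a b ha hb
    obtain ⟨x, hx, y, hy, -, p, q, hp, hq, hpq⟩ := hD4 a b ha hb
    refine ⟨p, ?_, q, ?_, hpq⟩
    · change f p ∈ D a
      rw [hf, hp]; exact hx
    · change f q ∈ D b
      rw [hf, hq]; exact hy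

end H52Scheme
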