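import Mathlib

/-!
# Matroid partition for rank-like functions

A short inductive proof of (the covering form of) Edmonds' matroid partition theorem.
-/

namespace H52Scheme

open Finset

section Partition

variable {E ι : Type*} [DecidableEq E]

/-- The properties of a matroid rank function that we use. -/
structure IsRank (r : Finset E → ℕ) : Prop where
  empty : r ∅ = 0
  mono : ∀ s t, s ⊆ t → r s ≤ r t
  sub : ∀ s t, r (s ∪ t) + r (s ∩ t) ≤ r s + r t
  step : ∀ s e, r (insert e s) ≤ r s + 1

theorem IsRank.le_card {r : Finset E → ℕ} (hr : IsRank r) (s : Finset E) : r s ≤ s.card := by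
  induction s using Finset.induction_on with
  | empty => simp [hr.empty]
  | insert a s ha ih =>
    have := hr.step s a
    rw [Finset.card_insert_of_notMem ha]
    omega

variable [Fintype ι] [DecidableEq ι]

theorem sum_update_eq (r : ι → Finset E → ℕ) (T : ι → Finset E) (W : Finset E) (j₀ : ι)
    (T₀ : Finset E) :
    ∑ k, r k (W ∪ Function.update T j₀ T₀ k) + r j₀ (W ∪ T j₀) =
      ∑ k, r k (W ∪ T k) + r j₀ (W ∪ T₀) := by
  classical
  rw [← Finset.add_sum_erase univ (fun k => r k (W ∪ Function.update T j₀ T₀ k)) (mem_univ j₀),
    ← Finset.add_sum_erase univ (fun k => r k (W ∪ T k)) (mem_univ j₀)]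
  have h : ∑ x ∈ univ.erase j₀, r x (W ∪ Function.update T j₀ T₀ x) =
      ∑ x ∈ univ.erase j₀, r x (W ∪ T x) := by
    refine Finset.sum_congr rfl fun x hx => ?_
    rw [Function.update_of_ne (Finset.ne_of_mem_erase hx)]
  simp only [Function.update_self]
  rw [h]
  ring

theorem partition_aux [Nonempty ι] (r : ι → Finset E → ℕ) (hr : ∀ j, IsRank (r j)) :
    ∀ (n : ℕ) (U : Finset E) (T : ι → Finset E), U.card = n →
      (∀ j, r j (T j) = (T j).card) →
      (∀ W ⊆ U, W.card + ∑ j, (T j).card ≤ ∑ j, r j (W ∪ T j)) →
      ∃ f : E → ι, ∀ j, r j (T j ∪ U.filter (fun x => f x = j)) =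
        (T j).card + (U.filter (fun x => f x = j)).card := by
  intro n
  induction n with
  | zero =>
    intro U T hU hT _
    rw [Finset.card_eq_zero] at hU
    subst hU
    exact ⟨fun _ => Classical.arbitrary ι, fun j => by simp [hT j]⟩
  | succ n ih =>
    intro U T hU hT hW
    obtain ⟨e, he⟩ : U.Nonempty := by
      rw [← Finset.card_pos]; omega
    set t := ∑ j, (T j).card with ht
    -- tight sets are closed under union
    have htight : ∀ W₁ W₂, W₁ ⊆ U → W₂ ⊆ U → ∑ j, r j (W₁ ∪ T j) = W₁.card + t →
        ∑ j, r j (W₂ ∪ T j) = W₂.card + t → ∑ j, r j ((W₁ ∪ W₂) ∪ T j) = (W₁ ∪ W₂).card + t := by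
      intro W₁ W₂ h₁ h₂ e₁ e₂
      have hsub : ∑ j, r j ((W₁ ∪ W₂) ∪ T j) + ∑ j, r j ((W₁ ∩ W₂) ∪ T j) ≤
          ∑ j, r j (W₁ ∪ T j) + ∑ j, r j (W₂ ∪ T j) := by
        rw [← Finset.sum_add_distrib, ← Finset.sum_add_distrib]
        refine Finset.sum_le_sum fun j _ => ?_
        have := (hr j).sub (W₁ ∪ T j) (W₂ ∪ T j)
        have e3 : (W₁ ∪ T j) ∪ (W₂ ∪ T j) = (W₁ ∪ W₂) ∪ T j := by
          ext x; simp only [Finset.mem_union]; tauto
        have e4 : (W₁ ∪ T j) ∩ (W₂ ∪ T j) = (W₁ ∩ W₂) ∪ T j := by
          ext x; simp only [Finset.mem_union, Finset.mem_inter]; tauto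
        rwa [e3, e4] at this
      have l1 := hW (W₁ ∪ W₂) (Finset.union_subset h₁ h₂)
      have l2 := hW (W₁ ∩ W₂) (Finset.inter_subset_left.trans h₁)
      have l3 := Finset.card_union_add_card_inter W₁ W₂
      omega
    have key : ∃ j₀, ∀ W ⊆ U.erase e,
        W.card + (t + 1) ≤ ∑ k, r k (W ∪ Function.update T j₀ (insert e (T j₀)) k) := by
      by_contra hcon
      push Not at hcon
      choose W hWs hWv using hcon
      have hWU : ∀ j, W j ⊆ U := fun j => (hWs j).trans (Finset.erase_subset _ _)
      have hprop : ∀ j, ∑ k, r k (W j ∪ T k) = (W j).card + t ∧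
          r j (insert e (W j ∪ T j)) = r j (W j ∪ T j) := by
        intro j
        have h1 := sum_update_eq r T (W j) j (insert e (T j))
        have h2 := hW (W j) (hWU j)
        have h3 := hWv j
        have h4 : r j (W j ∪ T j) ≤ r j (W j ∪ insert e (T j)) :=
          (hr j).mono _ _ (Finset.union_subset_union_right (Finset.subset_insert _ _))
        rw [Finset.union_insert] at h1 h4
        constructor <;> omega
      have hall : ∀ J : Finset ι, ∑ k, r k ((J.biUnion W) ∪ T k) = (J.biUnion W).card + t := by
        intro J
        induction J using Finset.induction_on with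
        | empty =>
          simp only [Finset.biUnion_empty, Finset.empty_union, Finset.card_empty, zero_add]
          rw [ht]
          exact Finset.sum_congr rfl fun j _ => hT j
        | insert a J _ ihJ =>
          rw [Finset.biUnion_insert]
          refine htight _ _ (hWU a) ?_ (hprop a).1 ihJ
          exact Finset.biUnion_subset.2 fun x _ => hWU x
      set Wu := (univ : Finset ι).biUnion W with hWu
      have hWuU : Wu ⊆ U := Finset.biUnion_subset.2 fun x _ => hWU x
      have heWu : e ∉ Wu := by
        rw [hWu, Finset.mem_biUnion]
        rintro ⟨j, _, hj⟩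
        exact absurd (hWs j hj) (Finset.notMem_erase _ _)
      have hcl : ∀ j, r j (insert e (Wu ∪ T j)) ≤ r j (Wu ∪ T j) := by
        intro j
        have h1 := (hr j).sub (Wu ∪ T j) (insert e (W j ∪ T j))
        have hWj : W j ⊆ Wu := Finset.subset_biUnion_of_mem W (mem_univ j)
        have e1 : (Wu ∪ T j) ∪ insert e (W j ∪ T j) = insert e (Wu ∪ T j) := by
          ext x
          simp only [Finset.mem_union, Finset.mem_insert]
          constructor
          · rintro ((h | h) | (h | h | h))
            · exact Or.inr (Or.inl h)
            · exact Or.inr (Or.inr h)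
            · exact Or.inl h
            · exact Or.inr (Or.inl (hWj h))
            · exact Or.inr (Or.inr h)
          · rintro (h | h | h)
            · exact Or.inr (Or.inl h)
            · exact Or.inl (Or.inl h)
            · exact Or.inl (Or.inr h)
        have h2 : r j (W j ∪ T j) ≤ r j ((Wu ∪ T j) ∩ insert e (W j ∪ T j)) := by
          refine (hr j).mono _ _ (Finset.subset_inter ?_ (Finset.subset_insert _ _))
          exact Finset.union_subset_union_left hWj
        rw [e1] at h1
        have h3 := (hprop j).2
        omega
      have h5 := hW (insert e Wu) (Finset.insert_subset he hWuU)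
      rw [Finset.card_insert_of_notMem heWu] at h5
      have h6 : ∑ j, r j (insert e Wu ∪ T j) ≤ ∑ j, r j (Wu ∪ T j) := by
        refine Finset.sum_le_sum fun j _ => ?_
        rw [Finset.insert_union]
        exact hcl j
      have h7 := hall univ
      rw [← hWu] at h7
      omega
    obtain ⟨j₀, hj₀⟩ := key
    have hTj : r j₀ (insert e (T j₀)) = (T j₀).card + 1 := by
      have h1 := hj₀ ∅ (Finset.empty_subset _)
      have h2 := sum_update_eq r T ∅ j₀ (insert e (T j₀))
      simp only [Finset.empty_union, Finset.card_empty] at h1 h2
      have h3 : ∑ k, r k (T k) = t := by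
        rw [ht]; exact Finset.sum_congr rfl fun j _ => hT j
      have h4 := (hr j₀).step (T j₀) e
      have h5 := hT j₀
      omega
    have heT : e ∉ T j₀ := by
      intro h
      rw [Finset.insert_eq_of_mem h] at hTj
      have := hT j₀
      omega
    have hcard : (U.erase e).card = n := by
      rw [Finset.card_erase_of_mem he]; omega
    have hsumcard : ∑ j, (Function.update T j₀ (insert e (T j₀)) j).card = t + 1 := by
      rw [← Finset.add_sum_erase univ _ (mem_univ j₀), ht,
        ← Finset.add_sum_erase univ (fun j => (T j).card) (mem_univ j₀)]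
      have h : ∑ x ∈ univ.erase j₀, (Function.update T j₀ (insert e (T j₀)) x).card =
          ∑ x ∈ univ.erase j₀, (T x).card := by
        refine Finset.sum_congr rfl fun x hx => ?_
        rw [Function.update_of_ne (Finset.ne_of_mem_erase hx)]
      rw [h]
      simp only [Function.update_self, Finset.card_insert_of_notMem heT]
      ring
    obtain ⟨f, hf⟩ := ih (U.erase e) (Function.update T j₀ (insert e (T j₀))) hcard
      (by
        intro j
        by_cases hj : j = j₀
        · subst hj
          simp only [Function.update_self]
          rw [hTj, Finset.card_insert_of_notMem heT]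
        · rw [Function.update_of_ne hj]; exact hT j)
      (by
        intro W hWe
        rw [hsumcard]
        exact hj₀ W hWe)
    refine ⟨Function.update f e j₀, fun j => ?_⟩
    have hfj := hf j
    by_cases hj : j = j₀
    · subst hj
      simp only [Function.update_self] at hfj
      have e1 : U.filter (fun x => Function.update f e j x = j) =
          insert e ((U.erase e).filter (fun x => f x = j)) := by
        ext x
        simp only [Finset.mem_filter, Finset.mem_insert, Finset.mem_erase]
        by_cases hx : x = e
        · subst hx; simp [he]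
        · rw [Function.update_of_ne hx]; tauto
      have e2 : e ∉ (U.erase e).filter (fun x => f x = j) := by simp
      rw [e1, Finset.card_insert_of_notMem e2, Finset.union_insert, ← Finset.insert_union, hfj,
        Finset.card_insert_of_notMem heT]
      ring
    · rw [Function.update_of_ne hj] at hfj
      have e1 : U.filter (fun x => Function.update f e j₀ x = j) =
          (U.erase e).filter (fun x => f x = j) := by
        ext x
        simp only [Finset.mem_filter, Finset.mem_erase]
        by_cases hx : x = e
        · subst hx; simp [Ne.symm hj]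
        · rw [Function.update_of_ne hx]; tauto
      rw [e1, hfj]

/-- Matroid partition: if every subset `W` of `Z` has at most `∑ j, r j W` elements, then `Z`
splits into sets `F j` that are independent for `r j`. -/
theorem partition [Nonempty ι] (r : ι → Finset E → ℕ) (hr : ∀ j, IsRank (r j)) (Z : Finset E)
    (hZ : ∀ W ⊆ Z, W.card ≤ ∑ j, r j W) :
    ∃ f : E → ι, ∀ j, r j (Z.filter (fun x => f x = j)) = (Z.filter (fun x => f x = j)).card := by
  obtain ⟨f, hf⟩ := partition_aux r hr Z.card Z (fun _ => ∅) rfl
    (fun j => by simp [(hr j).empty]) (fun W hW => by simpa using hZ W hW)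
  exact ⟨f, fun j => by simpa using hf j⟩

end Partition

/-! ### The rank function of a family of vectors -/

section Vectors

variable {E M : Type*} [DecidableEq E] [AddCommGroup M] [Module ℚ M] [FiniteDimensional ℚ M]

/-- The rank of a finite family of vectors. -/
noncomputable def vrank (w : E → M) (s : Finset E) : ℕ :=
  Module.finrank ℚ (Submodule.span ℚ (w '' (s : Set E)))

theorem vrank_isRank (w : E → M) : IsRank (vrank w) where
  empty := by simp [vrank]
  mono := fun s t h => Submodule.finrank_mono
    (Submodule.span_mono (Set.image_mono (Finset.coe_subset.2 h)))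
  sub := fun s t => by
    unfold vrank
    rw [Finset.coe_union, Finset.coe_inter, Set.image_union, Submodule.span_union]
    have h1 : Module.finrank ℚ (Submodule.span ℚ (w '' ((s : Set E) ∩ t))) ≤
        Module.finrank ℚ ((Submodule.span ℚ (w '' (s : Set E)) ⊓
          Submodule.span ℚ (w '' (t : Set E)) : Submodule ℚ M)) := by
      refine Submodule.finrank_mono (le_inf ?_ ?_)
      · exact Submodule.span_mono (Set.image_mono Set.inter_subset_left)
      · exact Submodule.span_mono (Set.image_mono Set.inter_subset_right)
    have h2 := Submodule.finrank_sup_add_finrank_inf_eq (Submodule.span ℚ (w '' (s : Set E)))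
      (Submodule.span ℚ (w '' (t : Set E)))
    omega
  step := fun s e => by
    unfold vrank
    rw [Finset.coe_insert, Set.image_insert_eq, Submodule.span_insert]
    have h2 := Submodule.finrank_sup_add_finrank_inf_eq (Submodule.span ℚ {w e})
      (Submodule.span ℚ (w '' (s : Set E)))
    have h3 : Module.finrank ℚ (Submodule.span ℚ {w e}) ≤ 1 := by
      have := finrank_span_le_card (R := ℚ) ({w e} : Set M)
      simpa using this
    omega

end Vectors

end H52Scheme
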