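import Pool.Agent.H52.Step

/-!
# Bipartite schemes have rooted complete bipartite minors
-/

namespace H52Scheme

universe u v

open Finset

variable {L : Type v}

theorem BScheme.flip {V : Type u} {G : SimpleGraph V} {s : L → Bool} {lam : V → L} {r : L → V}
    (h : BScheme G s lam r) : BScheme G (fun a => !s a) lam r where
  root := h.root
  conn := fun a b ha hb => by
    have h1 := h.conn b a (by simpa using hb) (by simpa using ha)
    refine (h1.mono ?_).symm
    intro x hx
    exact hx.symm

theorem PathFam.flip {V : Type u} {G : SimpleGraph V} {s : L → Bool} {lam : V → L} {r : L → V}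
    {N : L → L → ℕ} {q : L → L → ℕ → V} (h : PathFam G s lam r N q) :
    PathFam G (fun a => !s a) lam r (fun a b => N b a) (fun a b n => q b a (N b a - n)) where
  root := h.root
  zero := fun a b ha hb => by
    simp only [Nat.sub_zero]
    exact h.last b a (by simpa using hb) (by simpa using ha)
  last := fun a b ha hb => by
    simp only [Nat.sub_self]
    exact h.zero b a (by simpa using hb) (by simpa using ha)
  adj := fun a b ha hb n hn => by
    have h1 := h.adj b a (by simpa using hb) (by simpa using ha) (N b a - (n + 1)) (by omega)
    rw [show N b a - (n + 1) + 1 = N b a - n by omega] at h1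
    exact h1.symm
  lab := fun a b ha hb n hn =>
    (h.lab b a (by simpa using hb) (by simpa using ha) (N b a - n) (by omega)).symm
  inj := fun a b ha hb m hm n hn hmn => by
    have hm' : m ≤ N b a := hm
    have hn' : n ≤ N b a := hn
    have h1 := h.inj b a (by simpa using hb) (by simpa using ha)
      (show N b a - m ∈ Set.Iic _ from Nat.sub_le _ _)
      (show N b a - n ∈ Set.Iic _ from Nat.sub_le _ _) hmn
    omega

theorem innerA_flip {V : Type u} {s : L → Bool} {lam : V → L}
    {N : L → L → ℕ} {q : L → L → ℕ → V} (b : L) (x : V) :
    InnerA (fun a => !s a) lam (fun a b => N b a) (fun a b n => q b a (N b a - n)) b x ↔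
      InnerB s lam N q b x := by
  constructor
  · rintro ⟨h1, h2, n, h3, h4, h5⟩
    have h4' : n < N b (lam x) := h4
    exact ⟨by simpa using h2, by simpa using h1, N b (lam x) - n, by omega, by omega, h5⟩
  · rintro ⟨h1, h2, n, h3, h4, h5⟩
    refine ⟨by simpa using h2, by simpa using h1, N b (lam x) - n, by omega,
      (show N b (lam x) - n < N b (lam x) by omega), ?_⟩
    change q b (lam x) (N b (lam x) - (N b (lam x) - n)) = x
    rw [show N b (lam x) - (N b (lam x) - n) = n by omega]
    exact h5

theorem innerB_flip {V : Type u} {s : L → Bool} {lam : V → L}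
    {N : L → L → ℕ} {q : L → L → ℕ → V} (a : L) (x : V) :
    InnerB (fun a => !s a) lam (fun a b => N b a) (fun a b n => q b a (N b a - n)) a x ↔
      InnerA s lam N q a x := by
  constructor
  · rintro ⟨h1, h2, n, h3, h4, h5⟩
    have h4' : n < N (lam x) a := h4
    exact ⟨by simpa using h2, by simpa using h1, N (lam x) a - n, by omega, by omega, h5⟩
  · rintro ⟨h1, h2, n, h3, h4, h5⟩
    refine ⟨by simpa using h2, by simpa using h1, N (lam x) a - n, by omega,
      (show N (lam x) a - n < N (lam x) a by omega), ?_⟩
    change q (lam x) a (N (lam x) a - (N (lam x) a - n)) = x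
    rw [show N (lam x) a - (N (lam x) a - n) = n by omega]
    exact h5

theorem rooted_aux [Fintype L] [DecidableEq L] (s : L → Bool) :
    ∀ (m : ℕ) (V : Type u) [Fintype V] (G : SimpleGraph V) (lam : V → L) (r : L → V),
      Fintype.card V = m → BScheme G s lam r → RootedMinor G s r := by
  intro m
  induction m using Nat.strong_induction_on with
  | _ m ih =>
    intro V _ G lam r hm h
    classical
    have IH : ∀ (V' : Type u) [Fintype V'] (G' : SimpleGraph V') (lam' : V' → L) (r' : L → V'),
        Fintype.card V' < Fintype.card V → BScheme G' s lam' r' → RootedMinor G' s r' := by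
      intro V' _ G' lam' r' hlt h'
      exact ih _ (by rw [← hm]; exact hlt) V' G' lam' r' rfl h'
    by_cases hmono : ∃ u v, G.Adj u v ∧ lam u = lam v
    · obtain ⟨u, v, huv, hl⟩ := hmono
      exact contract_step G s lam r h IH u v huv hl
    have hmono' : ∀ u v, G.Adj u v → lam u ≠ lam v := fun u v huv hl => hmono ⟨u, v, huv, hl⟩
    obtain ⟨N, q, hP⟩ := h.exists_pathFam
    set X : Finset V := univ.filter (fun x => ∃ b, InnerA s lam N q b x) with hX
    set Y : Finset V := univ.filter (fun y => ∃ a, InnerB s lam N q a y) with hY
    have hX' : ∀ x, x ∈ X ↔ ∃ b, InnerA s lam N q b x := fun x => by simp [hX]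
    have hY' : ∀ y, y ∈ Y ↔ ∃ a, InnerB s lam N q a y := fun y => by simp [hY]
    by_cases hemp : X = ∅ ∧ Y = ∅
    · -- all paths are single edges
      refine ⟨fun a => {r a}, fun a => rfl, ?_, ?_, ?_⟩
      · intro a b hab
        rw [Set.disjoint_singleton]
        intro hr
        apply hab
        rw [← h.root a, ← h.root b, hr]
      · intro a x hx y hy
        rw [Set.mem_singleton_iff] at hx hy
        rw [hx, hy]; exact Conn.refl _ _ _
      · intro a b ha hb
        refine ⟨r a, rfl, r b, rfl, ?_⟩
        have hN : N a b = 1 := by
          have hN0 : N a b ≠ 0 := by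
            intro h0
            have h1 := hP.zero a b ha hb
            have h2 := hP.last a b ha hb
            rw [h0, h1] at h2
            have h3 : a = b := by rw [← h.root a, ← h.root b, h2]
            rw [h3, hb] at ha
            simp at ha
          by_contra hN1
          rcases hP.lab a b ha hb 1 (by omega) with hl | hl
          · have : q a b 1 ∈ X := by
              rw [hX']
              refine ⟨b, by rw [hl]; exact ha, hb, 1, one_pos, ?_, ?_⟩
              · rw [hl]; omega
              · rw [hl]
            rw [hemp.1] at this
            simp at this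
          · have : q a b 1 ∈ Y := by
              rw [hY']
              refine ⟨a, ha, by rw [hl]; exact hb, 1, one_pos, ?_, ?_⟩
              · rw [hl]; omega
              · rw [hl]
            rw [hemp.2] at this
            simp at this
        have h1 := hP.adj a b ha hb 0 (by omega)
        rw [hP.zero a b ha hb] at h1
        have h2 := hP.last a b ha hb
        rw [hN] at h2
        rw [zero_add, h2] at h1
        exact h1
    · rcases le_total Y.card X.card with hle | hle
      · have hne : X.Nonempty := by
          rw [Finset.nonempty_iff_ne_empty]
          intro h0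
          apply hemp
          refine ⟨h0, ?_⟩
          rw [h0, Finset.card_empty] at hle
          exact Finset.card_eq_zero.1 (by omega)
        obtain ⟨lam', h1, u, v, huv, hl⟩ := relabel_step hP hmono' X Y hX' hY' hne hle
        exact contract_step G s lam' r h1 IH u v huv hl
      · have hne : Y.Nonempty := by
          rw [Finset.nonempty_iff_ne_empty]
          intro h0
          apply hemp
          refine ⟨?_, h0⟩
          rw [h0, Finset.card_empty] at hle
          exact Finset.card_eq_zero.1 (by omega)
        obtain ⟨lam', h1, u, v, huv, hl⟩ := relabel_step hP.flip hmono' Y X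
          (fun x => by rw [hY' x]; exact exists_congr fun b => (innerA_flip b x).symm)
          (fun x => by rw [hX' x]; exact exists_congr fun b => (innerB_flip b x).symm) hne hle
        have h2 := h1.flip
        simp only [Bool.not_not] at h2
        exact contract_step G s lam' r h2 IH u v huv hl

/-- **Bipartite schemes have rooted complete bipartite minors.** -/
theorem rooted_minor [Fintype L] [DecidableEq L] {V : Type u} [Fintype V] (G : SimpleGraph V)
    (s : L → Bool) (lam : V → L) (r : L → V) (h : BScheme G s lam r) : RootedMinor G s r :=
  rooted_aux s _ V G lam r rfl h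

end H52Scheme
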