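import Pool.Agent.H52.Rooted
import Pool.Agent.PScheme.Defs

/-!
# `p`-schemes force `K_{⌊p/2⌋+1}` minors
-/

namespace H52Scheme

open PScheme

universe u

variable {V : Type u}

theorem conn_of_induce {G : SimpleGraph V} {S : Set V} (h : (G.induce S).Connected) {x y : V}
    (hx : x ∈ S) (hy : y ∈ S) : Conn G S x y := by
  have h1 := h.preconnected ⟨x, hx⟩ ⟨y, hy⟩
  rw [SimpleGraph.reachable_iff_reflTransGen] at h1
  have key : ∀ a b : S, Relation.ReflTransGen (G.induce S).Adj a b → Conn G S a b := by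
    intro a b hab
    induction hab with
    | refl => exact Conn.refl _ _ _
    | @tail b' c' _ hbc ih => exact ih.trans (Conn.single hbc b'.2 c'.2)
  exact key _ _ h1

theorem induce_connected {G : SimpleGraph V} {S : Set V} (hne : S.Nonempty)
    (h : ∀ x ∈ S, ∀ y ∈ S, Conn G S x y) : (G.induce S).Connected := by
  rw [SimpleGraph.connected_iff]
  refine ⟨?_, ⟨⟨hne.choose, hne.choose_spec⟩⟩⟩
  have key : ∀ x y, Conn G S x y → ∀ (hx : x ∈ S) (hy : y ∈ S),
      (G.induce S).Reachable ⟨x, hx⟩ ⟨y, hy⟩ := by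
    intro x y hxy
    induction hxy with
    | refl => intro hx hy; exact SimpleGraph.Reachable.refl _
    | tail _ hbc ih =>
      intro hx hy
      refine (ih hx hbc.2.1).trans ?_
      exact SimpleGraph.Adj.reachable (G := G.induce S)
        (show (G.induce S).Adj ⟨_, hbc.2.1⟩ ⟨_, hy⟩ from hbc.1)
  rintro ⟨x, hx⟩ ⟨y, hy⟩
  exact key x y (h x hx y hy) hx hy

section Label

variable {p m : ℕ}

/-- The index attached to a label: the labels `(true, i)` are the indices `i < m`, the labels
`(false, j)` are the indices `m + j < 2 m`. -/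
def idx (hp : 2 * m ≤ p) (a : Bool × Fin m) : Fin p :=
  ⟨if a.1 then a.2.val else m + a.2.val, by
    have := a.2.isLt
    split_ifs <;> omega⟩

theorem idx_true (hp : 2 * m ≤ p) (i : Fin m) : (idx hp (true, i)).val = i.val := rfl

theorem idx_false (hp : 2 * m ≤ p) (i : Fin m) : (idx hp (false, i)).val = m + i.val := rfl

theorem idx_injective (hp : 2 * m ≤ p) : Function.Injective (idx hp) := by
  rintro ⟨a, i⟩ ⟨b, j⟩ h
  have h' := congrArg Fin.val h
  have hi := i.isLt
  have hj := j.isLt
  cases a <;> cases b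
  · rw [idx_false, idx_false] at h'
    have : i = j := Fin.ext (by omega)
    rw [this]
  · rw [idx_false, idx_true] at h'; omega
  · rw [idx_true, idx_false] at h'; omega
  · rw [idx_true, idx_true] at h'
    have : i = j := Fin.ext (by omega)
    rw [this]

open Classical in
/-- The label of a vertex. -/
noncomputable def labelOf (hp : 2 * m ≤ p) (v : Fin p → V) (C : Fin p → Fin p → Set V)
    (d : Bool × Fin m) (x : V) : Bool × Fin m :=
  if h : ∃ a, x = v (idx hp a) then h.choose
  else if h : ∃ i : Fin m, ∀ k l, x ∈ C (idx hp (true, k)) (idx hp (false, l)) → k = i then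
    (true, h.choose)
  else if h : ∃ j : Fin m, ∀ k l, x ∈ C (idx hp (true, k)) (idx hp (false, l)) → l = j then
    (false, h.choose)
  else d

theorem labelOf_root (hp : 2 * m ≤ p) {v : Fin p → V} (hv : Function.Injective v)
    (C : Fin p → Fin p → Set V) (d : Bool × Fin m) (a : Bool × Fin m) :
    labelOf hp v C d (v (idx hp a)) = a := by
  have h : ∃ b, v (idx hp a) = v (idx hp b) := ⟨a, rfl⟩
  unfold labelOf
  rw [dif_pos h]
  exact (idx_injective hp (hv h.choose_spec)).symm

theorem labelOf_mem (hp : 2 * m ≤ p) {G : SimpleGraph V} {v : Fin p → V}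
    {C : Fin p → Fin p → Set V} (hS : IsScheme G v C) (d : Bool × Fin m) (i j : Fin m) {x : V}
    (hx : x ∈ C (idx hp (true, i)) (idx hp (false, j))) :
    labelOf hp v C d x = (true, i) ∨ labelOf hp v C d x = (false, j) := by
  have hne : ∀ a b : Bool × Fin m, a ≠ b → idx hp a ≠ idx hp b :=
    fun a b hab h => hab (idx_injective hp h)
  -- two cells containing a common vertex share a row or a column
  have hcells : ∀ (y : V) (i j k l : Fin m), y ∈ C (idx hp (true, i)) (idx hp (false, j)) →
      y ∈ C (idx hp (true, k)) (idx hp (false, l)) → i = k ∨ j = l := by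
    intro y i j k l h1 h2
    by_contra hcon
    push Not at hcon
    have h3 := hS.disj (idx hp (true, i)) (idx hp (false, j)) (idx hp (true, k))
      (idx hp (false, l)) (hne _ _ (by simp)) (hne _ _ (by simp [hcon.1]))
      (hne _ _ (by simp)) (hne _ _ (by simp)) (hne _ _ (by simp [hcon.2])) (hne _ _ (by simp))
    have : y ∈ C (idx hp (true, i)) (idx hp (false, j)) ∩
        C (idx hp (true, k)) (idx hp (false, l)) := ⟨h1, h2⟩
    rw [h3] at this
    exact this
  by_cases hroot : ∃ a, x = v (idx hp a)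
  · obtain ⟨a, rfl⟩ := hroot
    rw [labelOf_root hp hS.inj]
    obtain ⟨b, k⟩ := a
    cases b
    · -- a root of the second side
      right
      by_contra hk
      have hkj : k ≠ j := fun h => hk (by rw [h])
      -- choose another row
      obtain ⟨i', hi'⟩ : ∃ i' : Fin m, i' ≠ i := by
        by_cases h : i = k
        · exact ⟨j, by rw [h]; exact hkj.symm⟩
        · exact ⟨k, fun h' => h h'.symm⟩
      have h1 := (hS.mem (idx hp (true, i')) (idx hp (false, k)) (hne _ _ (by simp))).2
      rcases hcells _ i' k i j h1 hx with h | h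
      · exact hi' h
      · exact hkj h
    · left
      by_contra hk
      have hki : k ≠ i := fun h => hk (by rw [h])
      obtain ⟨j', hj'⟩ : ∃ j' : Fin m, j' ≠ j := by
        by_cases h : j = k
        · exact ⟨i, by rw [h]; exact hki.symm⟩
        · exact ⟨k, fun h' => h h'.symm⟩
      have h1 := (hS.mem (idx hp (true, k)) (idx hp (false, j')) (hne _ _ (by simp))).1
      rcases hcells _ k j' i j h1 hx with h | h
      · exact hki h
      · exact hj' h
  · by_cases hrow : ∃ i : Fin m, ∀ k l, x ∈ C (idx hp (true, k)) (idx hp (false, l)) → k = i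
    · left
      unfold labelOf
      rw [dif_neg hroot, dif_pos hrow]
      rw [← hrow.choose_spec i j hx]
    · have hcol : ∃ j : Fin m, ∀ k l, x ∈ C (idx hp (true, k)) (idx hp (false, l)) → l = j := by
        refine ⟨j, fun k l hkl => ?_⟩
        by_contra hlj
        have hki : k = i := (hcells x k l i j hkl hx).resolve_right hlj
        apply hrow
        refine ⟨i, fun k' l' h' => ?_⟩
        by_contra hk'
        have h1 := (hcells x k' l' i j h' hx).resolve_left hk'
        have h2 := (hcells x k' l' k l h' hkl).resolve_left (by rw [hki]; exact hk')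
        exact hlj (h2.symm.trans h1)
      right
      unfold labelOf
      rw [dif_neg hroot, dif_neg hrow, dif_pos hcol]
      rw [← hcol.choose_spec i j hx]

theorem scheme_bscheme (hp : 2 * m ≤ p) {G : SimpleGraph V} {v : Fin p → V}
    {C : Fin p → Fin p → Set V} (hS : IsScheme G v C) (d : Bool × Fin m) :
    BScheme G (fun a : Bool × Fin m => a.1) (labelOf hp v C d) (fun a => v (idx hp a)) where
  root := labelOf_root hp hS.inj C d
  conn := by
    rintro ⟨a, i⟩ ⟨b, j⟩ ha hb
    simp only at ha hb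
    subst ha hb
    have hne : idx hp (true, i) ≠ idx hp (false, j) := fun h => by
      have := idx_injective hp h
      simp at this
    have hm := hS.mem _ _ hne
    exact (conn_of_induce (hS.conn _ _ hne) hm.1 hm.2).mono
      (fun x hx => labelOf_mem hp hS d i j hx)

/-- The labels merged into the `k`-th branch set. -/
def grp (m : ℕ) (k : Fin (m + 1)) : Set (Bool × Fin m) :=
  {a | (a.1 = true ∧ a.2.val = k.val) ∨
    (a.1 = false ∧ ((a.2.val = k.val ∧ k.val + 1 < m) ∨ (a.2.val + 1 = m ∧ k.val = m)))}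

theorem contractsOnto_of_rooted (hm : 1 ≤ m) {G : SimpleGraph V} {r : Bool × Fin m → V}
    (h : RootedMinor G (fun a : Bool × Fin m => a.1) r) : ContractsOnto G (m + 1) := by
  obtain ⟨D, hD1, hD2, hD3, hD4⟩ := h
  have hgrp : ∀ k : Fin (m + 1), ∀ a ∈ grp m k, ∀ b ∈ grp m k, a ≠ b → a.1 ≠ b.1 := by
    rintro k ⟨a, i⟩ ha ⟨b, j⟩ hb hab h1
    simp only [grp, Set.mem_ofPred_eq] at ha hb h1
    subst h1
    apply hab
    have : i = j := by
      apply Fin.ext
      rcases ha with ⟨ha0, ha⟩ | ⟨ha0, ha | ha⟩ <;> rcases hb with ⟨hb0, hb⟩ | ⟨hb0, hb | hb⟩ <;>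
        first
        | omega
        | (rw [ha0] at hb0; simp at hb0)
    rw [this]
  have hedge : ∀ a b : Bool × Fin m, a.1 ≠ b.1 → ∃ x ∈ D a, ∃ y ∈ D b, G.Adj x y := by
    intro a b hab
    by_cases ha : a.1 = true
    · exact hD4 a b ha (by
        cases hb : b.1
        · exact hb
        · exact absurd (ha.trans hb.symm) hab)
    · have ha' : a.1 = false := by simpa using ha
      obtain ⟨x, hx, y, hy, hxy⟩ := hD4 b a (by
        cases hb : b.1
        · exact absurd (ha'.trans hb.symm) hab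
        · exact hb) ha'
      exact ⟨y, hy, x, hx, hxy.symm⟩
  refine ⟨fun k => ⋃ a ∈ grp m k, D a, ?_, ?_, ?_⟩
  · intro k
    have hne : (grp m k).Nonempty := by
      by_cases hk : k.val < m
      · exact ⟨(true, ⟨k.val, hk⟩), Or.inl ⟨rfl, rfl⟩⟩
      · have hk' : k.val = m := by have := k.isLt; omega
        exact ⟨(false, ⟨m - 1, by omega⟩), Or.inr ⟨rfl, Or.inr ⟨by
          change m - 1 + 1 = m; omega, hk'⟩⟩⟩
    obtain ⟨a₀, ha₀⟩ := hne
    apply induce_connected ⟨r a₀, Set.mem_iUnion₂.2 ⟨a₀, ha₀, hD1 a₀⟩⟩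
    intro x hx y hy
    obtain ⟨a, ha, hxa⟩ := Set.mem_iUnion₂.1 hx
    obtain ⟨b, hb, hyb⟩ := Set.mem_iUnion₂.1 hy
    have hsub : ∀ c ∈ grp m k, D c ⊆ ⋃ a ∈ grp m k, D a := fun c hc z hz =>
      Set.mem_iUnion₂.2 ⟨c, hc, hz⟩
    by_cases hab : a = b
    · subst hab
      exact (hD3 a x hxa y hyb).mono (hsub a ha)
    · obtain ⟨z, hz, w, hw, hzw⟩ := hedge a b (hgrp k a ha b hb hab)
      exact ((hD3 a x hxa z hz).mono (hsub a ha)).trans
        ((Conn.single hzw (hsub a ha hz) (hsub b hb hw)).trans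
          ((hD3 b w hw y hyb).mono (hsub b hb)))
  · intro k l hkl
    rw [← Set.disjoint_iff_inter_eq_empty, Set.disjoint_left]
    intro x hxk hxl
    obtain ⟨a, ha, hxa⟩ := Set.mem_iUnion₂.1 hxk
    obtain ⟨b, hb, hxb⟩ := Set.mem_iUnion₂.1 hxl
    by_cases hab : a = b
    · subst hab
      apply hkl
      apply Fin.ext
      simp only [grp, Set.mem_ofPred_eq] at ha hb
      rcases ha with ⟨ha0, ha⟩ | ⟨ha0, ha | ha⟩ <;> rcases hb with ⟨hb0, hb⟩ | ⟨hb0, hb | hb⟩ <;>
        first
        | omega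
        | (rw [ha0] at hb0; simp at hb0)
    · exact Set.disjoint_left.1 (hD2 a b hab) hxa hxb
  · intro k l hkl
    -- labels on different sides
    have hlab : ∃ a ∈ grp m k, ∃ b ∈ grp m l, a.1 ≠ b.1 := by
      have hk := k.isLt
      have hl := l.isLt
      have hne : k.val ≠ l.val := fun h => hkl (Fin.ext h)
      have hA : ∀ k : Fin (m + 1), k.val < m → ∃ a ∈ grp m k, a.1 = true := fun k hk =>
        ⟨(true, ⟨k.val, hk⟩), Or.inl ⟨rfl, rfl⟩, rfl⟩
      have hB : ∀ k : Fin (m + 1), k.val + 1 ≠ m → ∃ a ∈ grp m k, a.1 = false := by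
        intro k hk
        have hk2 := k.isLt
        by_cases hkm : k.val = m
        · exact ⟨(false, ⟨m - 1, by omega⟩), Or.inr ⟨rfl, Or.inr ⟨by
            change m - 1 + 1 = m; omega, hkm⟩⟩, rfl⟩
        · exact ⟨(false, ⟨k.val, by omega⟩), Or.inr ⟨rfl, Or.inl ⟨rfl, by omega⟩⟩, rfl⟩
      by_cases h1 : k.val < m ∧ l.val + 1 ≠ m
      · obtain ⟨a, ha, ha'⟩ := hA k h1.1
        obtain ⟨b, hb, hb'⟩ := hB l h1.2
        exact ⟨a, ha, b, hb, by rw [ha', hb']; simp⟩
      · have h2 : l.val < m ∧ k.val + 1 ≠ m := by omega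
        obtain ⟨a, ha, ha'⟩ := hB k h2.2
        obtain ⟨b, hb, hb'⟩ := hA l h2.1
        exact ⟨a, ha, b, hb, by rw [ha', hb']; simp⟩
    obtain ⟨a, ha, b, hb, hab⟩ := hlab
    obtain ⟨x, hx, y, hy, hxy⟩ := hedge a b hab
    exact ⟨x, Set.mem_iUnion₂.2 ⟨a, ha, hx⟩, y, Set.mem_iUnion₂.2 ⟨b, hb, hy⟩, hxy⟩

end Label

/-- A finite graph with a `p`-scheme, `p ≥ 2`, is contractible onto `K_{⌊p/2⌋+1}`. -/
theorem hasScheme_contractsOnto [Fintype V] {G : SimpleGraph V} {p : ℕ} (hp : 2 ≤ p)
    (h : HasScheme G p) : ContractsOnto G (p / 2 + 1) := by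
  classical
  obtain ⟨v, C, hS⟩ := h
  have hm : 1 ≤ p / 2 := by omega
  have hp' : 2 * (p / 2) ≤ p := by omega
  have d : Bool × Fin (p / 2) := (true, ⟨0, by omega⟩)
  exact contractsOnto_of_rooted hm (rooted_minor G _ _ _ (scheme_bscheme hp' hS d))

end H52Scheme
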