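import Pool.Agent.H52.Partition
import Pool.Agent.H52.Conn

/-!
# The elimination step
-/

set_option linter.unusedSectionVars false

namespace H52Scheme

universe u v

open Finset

variable {V : Type u} {L : Type v}

/-- A family of simple paths witnessing `BScheme`. -/
structure PathFam (G : SimpleGraph V) (s : L → Bool) (lam : V → L) (r : L → V)
    (N : L → L → ℕ) (q : L → L → ℕ → V) : Prop where
  root : ∀ a, lam (r a) = a
  zero : ∀ a b, s a = true → s b = false → q a b 0 = r a
  last : ∀ a b, s a = true → s b = false → q a b (N a b) = r b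
  adj : ∀ a b, s a = true → s b = false → ∀ n < N a b, G.Adj (q a b n) (q a b (n + 1))
  lab : ∀ a b, s a = true → s b = false → ∀ n ≤ N a b, lam (q a b n) = a ∨ lam (q a b n) = b
  inj : ∀ a b, s a = true → s b = false → Set.InjOn (q a b) (Set.Iic (N a b))

theorem BScheme.exists_pathFam {G : SimpleGraph V} {s : L → Bool} {lam : V → L} {r : L → V}
    (h : BScheme G s lam r) : ∃ N q, PathFam G s lam r N q := by
  classical
  have key : ∀ a b, ∃ (N : ℕ) (q : ℕ → V), s a = true → s b = false →
      (q 0 = r a ∧ q N = r b ∧ (∀ n < N, G.Adj (q n) (q (n + 1))) ∧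
      (∀ n ≤ N, lam (q n) = a ∨ lam (q n) = b) ∧ Set.InjOn q (Set.Iic N)) := by
    intro a b
    by_cases ha : s a = true
    · by_cases hb : s b = false
      · obtain ⟨N, q, h1, h2, h3, h4, h5⟩ := (h.conn a b ha hb).exists_path (Or.inl (h.root a))
        exact ⟨N, q, fun _ _ => ⟨h1, h2, h3, h4, h5⟩⟩
      · exact ⟨0, fun _ => r a, fun _ h' => absurd h' hb⟩
    · exact ⟨0, fun _ => r a, fun h' _ => absurd h' ha⟩
  choose N q hq using key
  exact ⟨N, q, ⟨h.root, fun a b ha hb => (hq a b ha hb).1, fun a b ha hb => (hq a b ha hb).2.1,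
    fun a b ha hb => (hq a b ha hb).2.2.1, fun a b ha hb => (hq a b ha hb).2.2.2.1,
    fun a b ha hb => (hq a b ha hb).2.2.2.2⟩⟩

/-- `x` is an inner vertex, of label `a`, of the path from `r a` to `r b`. -/
def InnerA (s : L → Bool) (lam : V → L) (N : L → L → ℕ) (q : L → L → ℕ → V) (b : L) (x : V) :
    Prop :=
  s (lam x) = true ∧ s b = false ∧ ∃ n, 0 < n ∧ n < N (lam x) b ∧ q (lam x) b n = x

/-- `y` is an inner vertex, of label `b`, of the path from `r a` to `r b`. -/
def InnerB (s : L → Bool) (lam : V → L) (N : L → L → ℕ) (q : L → L → ℕ → V) (a : L) (y : V) :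
    Prop :=
  s a = true ∧ s (lam y) = false ∧ ∃ n, 0 < n ∧ n < N a (lam y) ∧ q a (lam y) n = y

section Main

variable [Fintype V] [DecidableEq V] [Fintype L] [DecidableEq L]
variable {G : SimpleGraph V} {s : L → Bool} {lam : V → L} {r : L → V}
  {N : L → L → ℕ} {q : L → L → ℕ → V}

open Classical in
/-- The vector attached to `x` for the label `b`. -/
noncomputable def wvec (s : L → Bool) (lam : V → L) (N : L → L → ℕ) (q : L → L → ℕ → V) (b : L)
    (x : V) : V → ℚ :=
  if h : InnerA s lam N q b x then
    Pi.single (q (lam x) b (h.2.2.choose - 1)) 1 - Pi.single (q (lam x) b (h.2.2.choose + 1)) 1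
  else 0

theorem wvec_of_inner (hP : PathFam G s lam r N q) {b : L} {x : V} (hx : s (lam x) = true)
    (hb : s b = false) {n : ℕ} (h0 : 0 < n) (hn : n < N (lam x) b) (hq : q (lam x) b n = x) :
    wvec s lam N q b x =
      Pi.single (q (lam x) b (n - 1)) 1 - Pi.single (q (lam x) b (n + 1)) 1 := by
  classical
  have h : InnerA s lam N q b x := ⟨hx, hb, n, h0, hn, hq⟩
  unfold wvec
  rw [dif_pos h]
  have hc := h.2.2.choose_spec
  have : h.2.2.choose = n := by
    apply hP.inj (lam x) b hx hb
    · exact hc.2.1.le
    · exact hn.le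
    · rw [hc.2.2, hq]
  rw [this]

theorem wvec_of_not (b : L) (x : V) (h : ¬ InnerA s lam N q b x) : wvec s lam N q b x = 0 := by
  unfold wvec
  rw [dif_neg h]

/-- labels alternate along the paths when there is no monochromatic edge -/
theorem lab_nbr (hP : PathFam G s lam r N q) (hmono : ∀ u v, G.Adj u v → lam u ≠ lam v)
    {a b : L} (ha : s a = true) (hb : s b = false) {n : ℕ} (h0 : 0 < n) (hn : n < N a b)
    (hl : lam (q a b n) = a) : lam (q a b (n - 1)) = b ∧ lam (q a b (n + 1)) = b := by
  constructor
  · have h1 := hP.adj a b ha hb (n - 1) (by omega)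
    rw [show n - 1 + 1 = n by omega] at h1
    rcases hP.lab a b ha hb (n - 1) (by omega) with h | h
    · exact absurd (h.trans hl.symm) (hmono _ _ h1)
    · exact h
  · have h1 := hP.adj a b ha hb n hn
    rcases hP.lab a b ha hb (n + 1) (by omega) with h | h
    · exact absurd (hl.trans h.symm) (hmono _ _ h1)
    · exact h

/-- The key step: relabelling a set of `true`-side vertices. -/
theorem relabel_step (hP : PathFam G s lam r N q)
    (hmono : ∀ u v, G.Adj u v → lam u ≠ lam v) (X Y : Finset V)
    (hX : ∀ x, x ∈ X ↔ ∃ b, InnerA s lam N q b x) (hY : ∀ y, y ∈ Y ↔ ∃ a, InnerB s lam N q a y)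
    (hne : X.Nonempty) (hcard : Y.card ≤ X.card) :
    ∃ lam' : V → L, BScheme G s lam' r ∧ ∃ u v, G.Adj u v ∧ lam' u = lam' v := by
  classical
  have : Nonempty L := ⟨lam hne.choose⟩
  set w := wvec s lam N q with hw
  -- the ranks of all of `X`
  have hrank : ∀ b, vrank (w b) X ≤ (Y.filter (fun y => lam y = b)).card := by
    intro b
    have hsub : Submodule.span ℚ (w b '' (X : Set V)) ≤ Submodule.span ℚ
        (((Y.filter (fun y => lam y = b)).image
          (fun y => (Pi.single y 1 - Pi.single (r b) 1 : V → ℚ)) : Finset (V → ℚ)) :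
            Set (V → ℚ)) := by
      rw [Submodule.span_le]
      rintro _ ⟨x, -, rfl⟩
      by_cases hin : InnerA s lam N q b x
      · obtain ⟨hx, hb, n, h0, hn, hq⟩ := hin
        rw [hw, wvec_of_inner hP hx hb h0 hn hq]
        have hl := lab_nbr hP hmono hx hb h0 hn (by rw [hq])
        -- every vertex of label `b` of the path gives a member of the span
        have hmem : ∀ m ≤ N (lam x) b, lam (q (lam x) b m) = b →
            (Pi.single (q (lam x) b m) 1 - Pi.single (r b) 1 : V → ℚ) ∈ Submodule.span ℚ
            (((Y.filter (fun y => lam y = b)).image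
              (fun y => (Pi.single y 1 - Pi.single (r b) 1 : V → ℚ)) : Finset (V → ℚ)) :
                Set (V → ℚ)) := by
          intro m hm hlm
          rcases Nat.eq_or_lt_of_le hm with h | h
          · rw [h, hP.last _ _ hx hb, sub_self]
            exact Submodule.zero_mem _
          · apply Submodule.subset_span
            rw [Finset.mem_coe, Finset.mem_image]
            refine ⟨q (lam x) b m, ?_, rfl⟩
            rw [Finset.mem_filter, hY]
            refine ⟨⟨lam x, hx, by rw [hlm]; exact hb, m, ?_, by rw [hlm]; exact h,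
              by rw [hlm]⟩, hlm⟩
            rcases Nat.eq_zero_or_pos m with h' | h'
            · exfalso
              rw [h', hP.zero _ _ hx hb, hP.root] at hlm
              rw [hlm, hb] at hx
              exact absurd hx (by simp)
            · exact h'
        have h1 := hmem (n - 1) (by omega) hl.1
        have h2 := hmem (n + 1) (by omega) hl.2
        have h3 := Submodule.sub_mem _ h1 h2
        rw [sub_sub_sub_cancel_right] at h3
        exact h3
      · rw [hw, wvec_of_not b x hin]
        exact Submodule.zero_mem _
    refine (Submodule.finrank_mono hsub).trans ((finrank_span_finset_le_card _).trans ?_)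
    exact Finset.card_image_le
  have hsumX : ∑ b, vrank (w b) X ≤ X.card := by
    calc ∑ b, vrank (w b) X ≤ ∑ b, (Y.filter (fun y => lam y = b)).card :=
          Finset.sum_le_sum fun b _ => hrank b
      _ = Y.card := (Finset.card_eq_sum_card_fiberwise (fun x _ => Finset.mem_univ _)).symm
      _ ≤ X.card := hcard
  -- a minimal `Z`
  obtain ⟨Z, hZX, hZne, hZle, hZmin⟩ : ∃ Z ⊆ X, Z.Nonempty ∧ ∑ b, vrank (w b) Z ≤ Z.card ∧
      ∀ W ⊆ X, W.Nonempty → ∑ b, vrank (w b) W ≤ W.card → Z.card ≤ W.card := by
    obtain ⟨Z, hZ1, hZ2⟩ := Finset.exists_min_image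
      (X.powerset.filter (fun Z => Z.Nonempty ∧ ∑ b, vrank (w b) Z ≤ Z.card)) Finset.card
      ⟨X, by simp [hne, hsumX]⟩
    rw [Finset.mem_filter, Finset.mem_powerset] at hZ1
    refine ⟨Z, hZ1.1, hZ1.2.1, hZ1.2.2, fun W hW hWne hWle => hZ2 W ?_⟩
    rw [Finset.mem_filter, Finset.mem_powerset]
    exact ⟨hW, hWne, hWle⟩
  have hR : ∀ b, IsRank (vrank (w b)) := fun b => vrank_isRank _
  have hpos : ∀ x ∈ X, 1 ≤ ∑ b, vrank (w b) {x} := by
    intro x hx
    obtain ⟨b, hb⟩ := (hX x).1 hx
    have h1 : 1 ≤ vrank (w b) {x} := by
      unfold vrank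
      rw [Finset.coe_singleton, Set.image_singleton, Nat.one_le_iff_ne_zero]
      intro h0
      have h2 : w b x = 0 := by
        have h3 := Submodule.finrank_eq_zero.1 h0
        exact Submodule.span_singleton_eq_bot.1 h3
      obtain ⟨hx, hb', n, h0', hn, hq⟩ := hb
      rw [hw, wvec_of_inner hP hx hb' h0' hn hq] at h2
      have h3 := congrFun h2 (q (lam x) b (n - 1))
      have hneq : q (lam x) b (n - 1) ≠ q (lam x) b (n + 1) := by
        intro h
        have := hP.inj _ _ hx hb' (show n - 1 ∈ Set.Iic _ from (by simp; omega))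
          (show n + 1 ∈ Set.Iic _ from (by simp; omega)) h
        omega
      rw [Pi.sub_apply, Pi.single_eq_same, Pi.single_eq_of_ne hneq] at h3
      simp at h3
    exact h1.trans (Finset.single_le_sum (f := fun b => vrank (w b) {x})
      (fun _ _ => Nat.zero_le _) (Finset.mem_univ b))
  have hcov : ∀ W ⊆ Z, W.card ≤ ∑ b, vrank (w b) W := by
    intro W hW
    rcases W.eq_empty_or_nonempty with rfl | hWne
    · simp
    by_cases hWZ : W = Z
    · subst hWZ
      obtain ⟨e, he⟩ := hWne
      by_cases h1 : W = {e}
      · rw [h1, Finset.card_singleton]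
        exact hpos e (hZX he)
      · have h2 : (W.erase e).Nonempty := by
          rw [Finset.nonempty_iff_ne_empty]
          intro h3
          apply h1
          rw [← Finset.insert_erase he, h3]
          simp
        have h3 : ¬ ∑ b, vrank (w b) (W.erase e) ≤ (W.erase e).card := by
          intro h4
          have := hZmin _ ((Finset.erase_subset _ _).trans hZX) h2 h4
          have := Finset.card_erase_lt_of_mem he
          omega
        have h4 : ∑ b, vrank (w b) (W.erase e) ≤ ∑ b, vrank (w b) W :=
          Finset.sum_le_sum fun b _ => (hR b).mono _ _ (Finset.erase_subset _ _)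
        have h5 := Finset.card_erase_add_one he
        omega
    · have h3 : ¬ ∑ b, vrank (w b) W ≤ W.card := by
        intro h4
        have h5 := hZmin W (hW.trans hZX) hWne h4
        exact hWZ (Finset.eq_of_subset_of_card_le hW h5)
      omega
  obtain ⟨f, hf⟩ := partition (fun b => vrank (w b)) hR Z hcov
  set F : L → Finset V := fun b => Z.filter (fun x => f x = b) with hF
  have hFcard : ∑ b, (F b).card = Z.card :=
    (Finset.card_eq_sum_card_fiberwise (fun x _ => Finset.mem_univ _)).symm
  have hFle : ∀ b, vrank (w b) (F b) ≤ vrank (w b) Z :=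
    fun b => (hR b).mono _ _ (Finset.filter_subset _ _)
  have hFeq : ∀ b, vrank (w b) (F b) = vrank (w b) Z := by
    have h1 : ∑ b, vrank (w b) (F b) = ∑ b, vrank (w b) Z := by
      apply le_antisymm (Finset.sum_le_sum fun b _ => hFle b)
      calc ∑ b, vrank (w b) Z ≤ Z.card := hZle
        _ = ∑ b, (F b).card := hFcard.symm
        _ = ∑ b, vrank (w b) (F b) := Finset.sum_congr rfl fun b _ => (hf b).symm
    intro b
    exact (Finset.sum_eq_sum_iff_of_le (fun b _ => hFle b)).1 h1 b (Finset.mem_univ b)
  have hspan : ∀ b, Submodule.span ℚ (w b '' (F b : Set V)) =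
      Submodule.span ℚ (w b '' (Z : Set V)) := by
    intro b
    apply Submodule.eq_of_le_of_finrank_eq
    · exact Submodule.span_mono (Set.image_mono (Finset.coe_subset.2 (Finset.filter_subset _ _)))
    · exact hFeq b
  have hwne : ∀ z ∈ Z, w (f z) z ≠ 0 := by
    intro z hz h0
    have hzF : z ∈ F (f z) := by simp [hF, hz]
    have h1 := hf (f z)
    change vrank (w (f z)) (F (f z)) = (F (f z)).card at h1
    have h2 : vrank (w (f z)) (F (f z)) = vrank (w (f z)) ((F (f z)).erase z) := by
      unfold vrank
      conv_lhs => rw [← Finset.insert_erase hzF]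
      rw [Finset.coe_insert, Set.image_insert_eq, h0, Submodule.span_insert_zero]
    have h3 := (hR (f z)).le_card ((F (f z)).erase z)
    have h4 := Finset.card_erase_add_one hzF
    omega
  have hZin : ∀ z ∈ Z, InnerA s lam N q (f z) z := by
    intro z hz
    by_contra h
    exact hwne z hz (wvec_of_not _ _ h)
  -- facts about members of `Z`
  have hZs : ∀ z ∈ Z, s (lam z) = true := fun z hz => (hZin z hz).1
  have hZroot : ∀ a, r a ∉ Z := by
    intro a ha
    obtain ⟨h1, h2, n, h3, h4, h5⟩ := hZin _ ha
    rw [hP.root] at h1 h4 h5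
    have h6 := hP.inj a _ h1 h2 (show n ∈ Set.Iic _ from h4.le) (show 0 ∈ Set.Iic _ from
      (by simp)) (by rw [h5, hP.zero a _ h1 h2])
    omega
  let lam' : V → L := fun x => if x ∈ Z then f x else lam x
  have hlamZ : ∀ x ∈ Z, lam' x = f x := fun x hx => by simp only [lam', if_pos hx]
  have hlamN : ∀ x, x ∉ Z → lam' x = lam x := fun x hx => by simp only [lam', if_neg hx]
  have hnotZ : ∀ x, s (lam x) = false → x ∉ Z := by
    intro x hx hxZ
    rw [hZs x hxZ] at hx
    simp at hx
  -- connectivity of the new label classes
  have hconn : ∀ a b n, s a = true → s b = false → 0 < n → n < N a b → q a b n ∈ Z →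
      Conn G {x | lam' x = b} (q a b (n - 1)) (q a b (n + 1)) := by
    intro a b n ha hb h0 hn hz
    set z := q a b n with hzdef
    have hlz : lam z = a := by
      rcases hP.lab a b ha hb n hn.le with h | h
      · exact h
      · exfalso
        have := hZs z hz
        rw [hzdef, h, hb] at this
        simp at this
    have hwz : w b z = Pi.single (q a b (n - 1)) 1 - Pi.single (q a b (n + 1)) 1 := by
      have := wvec_of_inner hP (x := z) (b := b) (n := n) (by rw [hlz]; exact ha) hb h0
        (by rw [hlz]; exact hn) (by rw [hlz])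
      rw [hlz] at this
      exact this
    set p := q a b (n - 1) with hp
    set t := q a b (n + 1) with htd
    set C : Finset V := Finset.univ.filter (fun x => Conn G {x | lam' x = b} p x) with hC
    -- the functional summing over `C`
    let ℓ : (V → ℚ) →ₗ[ℚ] ℚ :=
      { toFun := fun g => ∑ x ∈ C, g x
        map_add' := fun g g' => by simp [Finset.sum_add_distrib]
        map_smul' := fun c g => by simp [Finset.mul_sum] }
    have hℓs : ∀ x, ℓ (Pi.single x 1) = if x ∈ C then 1 else 0 := by
      intro x
      change ∑ y ∈ C, (Pi.single x (1 : ℚ) : V → ℚ) y = _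
      simp only [Pi.single_apply, Finset.sum_ite_eq']
    have hker : ∀ g ∈ Submodule.span ℚ (w b '' (F b : Set V)), ℓ g = 0 := by
      intro g hg
      have hle : Submodule.span ℚ (w b '' (F b : Set V)) ≤ LinearMap.ker ℓ := by
        rw [Submodule.span_le]
        rintro _ ⟨y, hy, rfl⟩
        change ℓ (w b y) = 0
        rw [Finset.mem_coe, hF, Finset.mem_filter] at hy
        by_cases hin : InnerA s lam N q b y
        · obtain ⟨hys, -, m, hm0, hmN, hmq⟩ := hin
          rw [hw, wvec_of_inner hP hys hb hm0 hmN hmq, map_sub, hℓs, hℓs]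
          have hl := lab_nbr hP hmono hys hb hm0 hmN (by rw [hmq])
          have had1 : G.Adj (q (lam y) b (m - 1)) y := by
            have := hP.adj (lam y) b hys hb (m - 1) (by omega)
            rw [show m - 1 + 1 = m by omega, hmq] at this
            exact this
          have had2 : G.Adj y (q (lam y) b (m + 1)) := by
            have := hP.adj (lam y) b hys hb m hmN
            rw [hmq] at this
            exact this
          have hy' : lam' y = b := by rw [hlamZ y hy.1, hy.2]
          have h1' : lam' (q (lam y) b (m - 1)) = b := by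
            rw [hlamN _ (hnotZ _ (by rw [hl.1]; exact hb)), hl.1]
          have h2' : lam' (q (lam y) b (m + 1)) = b := by
            rw [hlamN _ (hnotZ _ (by rw [hl.2]; exact hb)), hl.2]
          have hiff : q (lam y) b (m - 1) ∈ C ↔ q (lam y) b (m + 1) ∈ C := by
            rw [hC, Finset.mem_filter, Finset.mem_filter]
            simp only [Finset.mem_univ, true_and]
            have hc : Conn G {x | lam' x = b} (q (lam y) b (m - 1)) (q (lam y) b (m + 1)) :=
              (Conn.single had1 h1' hy').trans (Conn.single had2 hy' h2')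
            exact ⟨fun h => h.trans hc, fun h => h.trans hc.symm⟩
          by_cases hmem : q (lam y) b (m - 1) ∈ C
          · rw [if_pos hmem, if_pos (hiff.1 hmem), sub_self]
          · rw [if_neg hmem, if_neg (fun h => hmem (hiff.2 h)), sub_self]
        · rw [hw, wvec_of_not b y hin, map_zero]
      exact hle hg
    have hzspan : w b z ∈ Submodule.span ℚ (w b '' (F b : Set V)) := by
      rw [hspan b]
      exact Submodule.subset_span ⟨z, hz, rfl⟩
    have h0' := hker _ hzspan
    rw [hwz, map_sub, hℓs, hℓs] at h0'
    have hpC : p ∈ C := by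
      rw [hC, Finset.mem_filter]
      exact ⟨Finset.mem_univ _, Conn.refl _ _ _⟩
    rw [if_pos hpC] at h0'
    by_cases htC : t ∈ C
    · rw [hC, Finset.mem_filter] at htC
      exact htC.2
    · rw [if_neg htC] at h0'
      simp at h0'
  refine ⟨lam', ⟨?_, ?_⟩, ?_⟩
  · intro a
    rw [hlamN _ (hZroot a), hP.root]
  · intro a b ha hb
    have hgen : ∀ n ≤ N a b, q a b n ∉ Z →
        Conn G {x | lam' x = a ∨ lam' x = b} (r a) (q a b n) := by
      intro n
      induction n using Nat.strong_induction_on with
      | _ n ih =>
        intro hn hnZ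
        rcases Nat.eq_zero_or_pos n with h0 | h0
        · rw [h0, hP.zero a b ha hb]; exact Conn.refl _ _ _
        · by_cases hprev : q a b (n - 1) ∈ Z
          · -- jump over the relabelled vertex
            have hm0 : 0 < n - 1 := by
              rcases Nat.eq_zero_or_pos (n - 1) with h | h
              · rw [h, hP.zero a b ha hb] at hprev
                exact absurd hprev (hZroot a)
              · exact h
            have hc := hconn a b (n - 1) ha hb hm0 (by omega) hprev
            rw [show n - 1 + 1 = n by omega] at hc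
            have hlz : lam (q a b (n - 1)) = a := by
              rcases hP.lab a b ha hb (n - 1) (by omega) with h | h
              · exact h
              · exfalso
                have := hZs _ hprev
                rw [h, hb] at this
                simp at this
            have hl := lab_nbr hP hmono ha hb hm0 (by omega) hlz
            have h1 := ih (n - 1 - 1) (by omega) (by omega)
              (hnotZ _ (by rw [hl.1]; exact hb))
            exact h1.trans (hc.mono (fun x hx => Or.inr hx))
          · have h1 := ih (n - 1) (by omega) (by omega) hprev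
            have hadj := hP.adj a b ha hb (n - 1) (by omega)
            rw [show n - 1 + 1 = n by omega] at hadj
            refine h1.trans (Conn.single hadj ?_ ?_)
            · change lam' _ = a ∨ lam' _ = b
              rw [hlamN _ hprev]; exact hP.lab a b ha hb (n - 1) (by omega)
            · change lam' _ = a ∨ lam' _ = b
              rw [hlamN _ hnZ]; exact hP.lab a b ha hb n hn
    have := hgen (N a b) le_rfl (by rw [hP.last a b ha hb]; exact hZroot b)
    rw [hP.last a b ha hb] at this
    exact this
  · obtain ⟨z, hz⟩ := hZne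
    obtain ⟨h1, h2, n, h3, h4, h5⟩ := hZin z hz
    have hl := lab_nbr hP hmono h1 h2 h3 h4 (by rw [h5])
    refine ⟨q (lam z) (f z) (n - 1), z, ?_, ?_⟩
    · have := hP.adj (lam z) (f z) h1 h2 (n - 1) (by omega)
      rw [show n - 1 + 1 = n by omega, h5] at this
      exact this
    · rw [hlamZ z hz, hlamN _ (hnotZ _ (by rw [hl.1]; exact h2)), hl.1]

end Main

end H52Scheme
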